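import Pool.Agent.H896.IL.Real
import Pool.Agent.H896.IL.StmtLc

/-!
# Weak nonvanishing and abundance for real log canonical pairs on compact quotients of
`ℂ^n × P^{r_1} × ... × P^{r_c}`

Let `V = ℂ^n`, `F = P^{r_1} × ... × P^{r_c}`, and let `Γ` be any group of holomorphic isometries of `V × F`
which acts properly discontinuously with a compact quotient `X = (V × F) / Γ`, projective or not: the group
may have fixed points, permute the factors of `F`, and contain reflections of `V`, reflections of the
factors of `F` and exchanges of two factors `P^1`, and it acts on `F` by arbitrary unitary
transformations. For instance `X` is a quotient by a finite group of a fibre product of projective bundles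
over a complex torus which come from arbitrary projectively unitary representations of the lattice.

Theorem. Let `(X, B)` be any log canonical pair, `B = ∑ d_i D_i`, `d_i > 0` real numbers, `D_i` effective
Cartier divisors. Then `K_X + B` is pseudo-effective if and only if it is numerically equivalent to an
effective divisor, if and only if it is nef, if and only if it is semiample. For projective `X` this is
Q1, and abundance, for all log canonical pairs on `X`.

For klt pairs this is the hand-in `MP_badc2d_ag/RealIsometryQuotientPairs`. Its proof cannot be used
for log canonical pairs: it shows that no one-parameter group of automorphisms of `F` preserves the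
pair, and that this is inherited by all the rational combinations of `K_X` and the `D_i` which occur in a
decomposition of `K_X + B`, log canonical or not. Log canonical pairs can be preserved by one-parameter
groups (for instance `B = {z_0 = 0} + {z_1 = 0}` on the projective bundle of a sum of two line bundles, where
`K_X + B = 0`), and then their rational neighbours need not be semiample even if they are nef.

The proof. Let `w` be the weights of a one-parameter group, diagonal in suitable coordinates, which
preserves `σ` and all the `β_i`. The inequality (discrepancy at least `-1`) for the two opposite monomial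
valuations of the group gives an equality for the weights, one for each choice of one coordinate in each
factor (`weight_rel`, `IL/Disc.lean`). For given weights it is a linear equation with integral
coefficients for the coefficients of `K_X` and the `D_i` (`Psi`), satisfied by `(1, d)`. All these
equations (for infinitely many `w`) follow from finitely many of them, so that `K_X + B` is a positive
combination of rational nef classes which satisfy all the equations (`IL/Real.lean`); these need not be
log canonical. The equations are enough for the base point freeness (`IL/Free.lean`): the obstruction for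
sections on the constant section of the bundle at a vertex of the moment polytope is a character on the
lattice vectors in the kernel of the Chern form, and a power of it is a product of characters of
differences of exponents of monomials of the equations, which are trivial.

The definition of log canonical pairs is in `Pool.Agent.H896.IL.StmtLc`, the other definitions are in
`Pool.Agent.H896.IR.Stmt` and `Pool.Agent.H896.IQ.Stmt`, and `Co`, `IsPt`, `mulBy`, `Trans`, `onV`, `onZ`, `jac`,
`same`, `lin`, `IsHomog` and `IsEffective` in `Pool.Agent.T2H08.FQ.Stmt` of the library; `IsHermitian` is
defined in `Pool.Agent.W594.SYZ.Defs2` and `IsNefForm` in `Pool.Agent.W594.SYZ.TQDefs`.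
-/

set_option autoImplicit false

namespace Pool.Agent.Results.MP_66b48b_ag.RealLcIsometryQuotients

open Pool.Agent.T2H08.FB (Co Trans)
open Pool.Agent.H896.IG

/-- Let `X = (V × F) / Γ` be a compact quotient of `V × F`, `V = ℂ^n`, `F = P^{r 0} × ... × P^{r (c - 1)}`, by
a discrete group of holomorphic isometries, let the entire function `ρ` on `V` and the polynomial `σ`
define the ramification divisor of `V × F → X`, let `K = O_X (m K_X)`, `m ≥ 1`, and let the `D i`, given by
the sections `β i`, be effective Cartier divisors, `d i > 0` real numbers, `B = ∑ d i D_i`. If `(X, B)` is
log canonical then the following are equivalent: `K_X + B`, that is, `(1 / m) K + ∑ d i D_i`, is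
pseudo-effective; it is effective up to numerical equivalence; it is nef; it is semiample (a positive real
combination of semiample line bundles of the form `K ^ a ⊗ D_0 ^ b_0 ⊗ ...`). -/
theorem result {n c : ℕ} {r : Fin c → ℕ} (Γ : Subgroup (Trans n r)) (hΓ : IsIsometryGroup Γ)
    (ρ : (Fin n → ℂ) → ℂ) (σ : MvPolynomial (Co r) ℂ) (l : Fin c → ℕ)
    (hρ : IsRamification Γ ρ σ l) (m : ℕ) (hm : 1 ≤ m) (K : LineBundle Γ)
    (hK : IsLogPluricanonical K m ρ σ l (fun _ => 1) (fun _ => 0))
    (HK : (Fin n → ℂ) → (Fin n → ℂ) → ℂ) (hHK : K.IsChernForm HK) {N : ℕ}
    (D : Fin N → LineBundle Γ) (β : Fin N → (Fin n → ℂ) → MvPolynomial (Co r) ℂ)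
    (κ : Fin N → Fin c → ℕ) (hβ : ∀ i, IsCartier (D i) (β i) (κ i))
    (HD : Fin N → (Fin n → ℂ) → (Fin n → ℂ) → ℂ) (hHD : ∀ i, (D i).IsChernForm (HD i))
    (d : Fin N → ℝ) (hd : ∀ i, 0 < d i) (hlc : IsLcReal ρ σ d β) :
    [IsPseudoEffectiveClass Γ (realClass K HK D HD (1 / m) d),
      IsEffectiveClass Γ (realClass K HK D HD (1 / m) d),
      IsNefClass (realClass K HK D HD (1 / m) d),
      IsSemiampleReal K D (1 / m) d].TFAE := by
  tfae_have 3 → 4 := fun h => semiample_lc hΓ hρ hm hK hHK hβ hHD hd hlc h
  tfae_have 4 → 2 := fun h => eff_of_semi hHK hHD h
  tfae_have 2 → 1 := pseff_of_eff
  tfae_have 1 → 3 := nef_of_pseff hΓ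
  tfae_finish

end Pool.Agent.Results.MP_66b48b_ag.RealLcIsometryQuotients
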